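import Mathlib
import Pool.Agent.Helper222.CPE.Defs
import Pool.Agent.Helper222.CPE.NonBorel
import Pool.Agent.Helper222.CPE.Borel
import Pool.Agent.Helper222.CPE.CaseI
import Pool.Agent.Helper222.CPE.Hard
import Pool.Agent.Helper222.CPE.Coan

open Set Filter Topology MeasureTheory Pool.Agent.Helper222.CPE

namespace Pool.Agent.Results.MP_1073f4_an.CPEComplexity

/-- The set `C^k(T^n, T^n)` with the uniform topology (`C(T n, T n)` carries the compact-open
topology, which is the topology of uniform convergence because `T n` is a compact metric space). -/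
abbrev CkMap (n : ℕ) (k : ℕ∞) : Type := {f : C(T n, T n) // IsCk n k f}

/-- `CPE^k(T^n)`, as a subset of `C^k(T^n, T^n)`. -/
def CPEk (n : ℕ) (k : ℕ∞) : Set (CkMap n k) := {f | IsCPE (f.1 : T n → T n)}

/-- For every `1 ≤ k ≤ ∞`: `CPE^k(T^1)` is Borel in `C^k(T^1, T^1)`, while for `n ≥ 2` the set
`CPE^k(T^n)` is complete coanalytic in `C^k(T^n, T^n)`, in particular not Borel. -/
theorem result (k : ℕ∞) (hk : 1 ≤ k) :
    @MeasurableSet (CkMap 1 k) (borel _) (CPEk 1 k) ∧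
    ∀ n : ℕ, 2 ≤ n →
      (∃ B : Set C(T n, T n), AnalyticSet Bᶜ ∧ CPEk n k = Subtype.val ⁻¹' B) ∧
      (∀ A : Set (ℕ → ℕ), AnalyticSet Aᶜ →
        ∃ r : (ℕ → ℕ) → CkMap n k, Continuous r ∧ r ⁻¹' CPEk n k = A) ∧
      ¬ @MeasurableSet (CkMap n k) (borel _) (CPEk n k) := by
  refine ⟨?_, ?_⟩
  · letI : MeasurableSpace C(T 1, T 1) := borel _
    haveI : BorelSpace C(T 1, T 1) := ⟨rfl⟩
    letI : MeasurableSpace (CkMap 1 k) := borel _
    haveI : BorelSpace (CkMap 1 k) := ⟨rfl⟩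
    have h1 : CPEk 1 k = Subtype.val ⁻¹' {f : C(T 1, T 1) | PP (f : T 1 → T 1)} := by
      ext f
      exact cpe_one_iff_PP k hk f.1 f.1.continuous f.2
    have h2 : MeasurableSet {f : C(T 1, T 1) | PP (f : T 1 → T 1)} := measurableSet_PP
    have h3 : Measurable (Subtype.val : CkMap 1 k → C(T 1, T 1)) := continuous_subtype_val.measurable
    rw [h1]
    exact h3 h2
  · intro n hn
    obtain ⟨m, rfl⟩ : ∃ m, n = m + 2 := ⟨n - 2, by omega⟩
    have hhard : ∀ A : Set (ℕ → ℕ), AnalyticSet Aᶜ →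
        ∃ r : (ℕ → ℕ) → CkMap (m + 2) k, Continuous r ∧ r ⁻¹' CPEk (m + 2) k = A := by
      intro A hA
      obtain ⟨r, hr, hk', hiff⟩ := hard m A hA
      refine ⟨fun z => ⟨r z, hk' z k⟩, hr.subtype_mk _, ?_⟩
      ext z
      exact hiff z
    refine ⟨⟨{f | IsCPE (f : T (m + 2) → T (m + 2))}, analytic_not_cpe, rfl⟩, hhard, ?_⟩
    intro hmeas
    obtain ⟨D, hD, hDm⟩ := Pool.Agent.Helper222.CPE.NB.exists_analytic_not_measurable
    obtain ⟨r, hr, hrA⟩ := hhard Dᶜ (by rwa [compl_compl])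
    letI : MeasurableSpace (CkMap (m + 2) k) := borel _
    haveI : BorelSpace (CkMap (m + 2) k) := ⟨rfl⟩
    have h3 : MeasurableSet (Dᶜ) := by
      rw [← hrA]
      exact hr.measurable hmeas
    exact hDm (by simpa using h3.compl)

end Pool.Agent.Results.MP_1073f4_an.CPEComplexity
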